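import Pool.Agent.L0h54.VR.Asm

set_option autoImplicit false

/-! All scales: the exceptional primes for the variance. -/

namespace Pool.Agent.L0h54.VR

open Finset Filter
open scoped Classical Topology
open Pool.Agent.L0h54.RM (Wn)
open Pool.Agent.L0h54.GC (SW ff es CC VV LSB_mono asym)
open Pool.Agent.H306R2.RZ (LSB)
open Pool.Agent.H423R2.RZL.HBLSn (HBLS)

theorem grid_all (hE : E2B) (hT : TRANS) (ε : ℝ) (hε0 : 0 < ε) (hε1 : ε < 1 / 2) :
    ∃ c : ℝ, 0 < c ∧ ∃ Q0 : ℕ, ∀ Q : ℕ, Q0 ≤ Q → ∀ sg : ℕ → ℝ, (∀ n, |sg n| = 1) →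
      ∃ E : Finset ℕ, (E.card : ℝ) ≤ (Q:ℝ) ^ (1 - c) ∧
        ∀ p : ℕ, p.Prime → p ≤ Q → p ∉ E → ∀ r L : ℕ, (Q:ℝ) ^ ε ≤ 2 ^ r →
          (2:ℝ) ^ (ε * r) ≤ L → (L:ℝ) ≤ 2 ^ ((1 - ε) * r) → (2:ℝ) ^ r * L ≤ (Q:ℝ) ^ (1 - ε) →
            Good (ff sg p) r L ((2:ℝ) ^ (-(c * r))) := by
  obtain ⟨c1, hc1⟩ : ∃ c1 : ℝ, c1 = ε ^ 2 / 20 := ⟨_, rfl⟩
  have hc10 : 0 < c1 := by rw [hc1]; positivity
  have hc1ε : c1 ≤ ε / 4 := by rw [hc1]; nlinarith
  obtain ⟨C, hC, r0, hper⟩ := per_r hE hT ε c1 hε0 hε1 hc10 hc1ε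
  obtain ⟨ε2, hε2⟩ : ∃ ε2 : ℝ, ε2 = ε ^ 3 / 400 := ⟨_, rfl⟩
  have hε20 : 0 < ε2 := by rw [hε2]; positivity
  obtain ⟨CH, hCH, hls⟩ := HBLS ε2 hε20
  obtain ⟨c, hc⟩ : ∃ c : ℝ, c = ε ^ 3 / 100 := ⟨_, rfl⟩
  have hc0 : 0 < c := by rw [hc]; positivity
  have he2 : ε ^ 2 ≤ ε := by nlinarith
  have he3 : ε ^ 3 ≤ ε ^ 2 / 2 := by nlinarith [sq_nonneg ε]
  have he30 : 0 < ε ^ 3 := by positivity
  have he20 : 0 < ε ^ 2 := by positivity
  obtain ⟨c', hc'⟩ : ∃ c' : ℝ, c' = ε ^ 3 / 1000 := ⟨_, rfl⟩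
  have hc'0 : 0 < c' := by rw [hc']; positivity
  obtain ⟨K, hK⟩ : ∃ K : ℝ, K = 2 * (C * (10 * CH * 9 ^ ε2 + 2 * CH)) := ⟨_, rfl⟩
  have hK0 : 0 < K := by rw [hK]; positivity
  have hev := (((tendsto_rpow_atTop hε0).comp
      (tendsto_natCast_atTop_atTop (R := ℝ))).eventually_ge_atTop (2 ^ (r0 + 1))).and
    ((asym 1 c' hc'0).and ((asym K c' hc'0).and
    ((((tendsto_rpow_atTop (show (0:ℝ) < ε / 2 by linarith)).comp
      (tendsto_natCast_atTop_atTop (R := ℝ))).eventually_ge_atTop 32).and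
    ((((tendsto_rpow_atTop hc'0).comp
      (tendsto_natCast_atTop_atTop (R := ℝ))).eventually_ge_atTop 2).and (eventually_ge_atTop 1)))))
  obtain ⟨Q0, hQ0⟩ := eventually_atTop.mp hev
  refine ⟨c, hc0, Q0, ?_⟩
  intro Q hQ sg hsg
  obtain ⟨v1, v2, v3, v4, v5, hQ1⟩ := hQ0 Q hQ
  simp only [Function.comp] at v1 v4 v5
  obtain ⟨q, hq⟩ : ∃ q : ℝ, q = (Q:ℝ) := ⟨_, rfl⟩
  rw [← hq] at v1 v2 v3 v4 v5 ⊢
  have hq1 : 1 ≤ q := by rw [hq]; exact_mod_cast hQ1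
  have hq0 : 0 < q := by linarith
  obtain ⟨ll, hll⟩ : ∃ ll : ℝ, ll = ((Nat.log 2 Q : ℕ) : ℝ) + 1 := ⟨_, rfl⟩
  rw [← hll] at v2 v3
  have hll1 : 1 ≤ ll := by
    rw [hll]; have : (0:ℝ) ≤ ((Nat.log 2 Q : ℕ) : ℝ) := Nat.cast_nonneg _; linarith
  have hqm : ∀ a b : ℝ, a ≤ b → q ^ a ≤ q ^ b := fun a b h =>
    Real.rpow_le_rpow_of_exponent_le hq1 h
  have hq32 : 32 * q ^ (1 - ε) ≤ q ^ (1 - ε / 2) := by
    have e : q ^ (1 - ε / 2) = q ^ (ε / 2) * q ^ (1 - ε) := by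
      rw [← Real.rpow_add hq0]; congr 1; ring
    rw [e]
    exact mul_le_mul_of_nonneg_right v4 (by positivity)
  have hq32' : 32 * q ^ (1 - ε) ≤ q := by
    refine hq32.trans ?_
    calc q ^ (1 - ε / 2) ≤ q ^ (1:ℝ) := hqm _ _ (by linarith)
      _ = q := Real.rpow_one q
  -- the bad set of one scale
  have hbad : ∀ r : ℕ, ∃ Bad : Finset ℕ, (Bad.card : ℝ) ≤ K * ll ^ 3 * q ^ (1 - ε ^ 3 / 50) ∧
      (q ^ ε ≤ 2 ^ r → (2:ℝ) ^ r ≤ q ^ (1 - ε) → ∀ l : ℕ, l.Prime → 2 ^ (r + 4) < l → l ≤ Q →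
        l ∉ Bad → ∀ L : ℕ, (2:ℝ) ^ (ε * r) ≤ L → (L:ℝ) ≤ 2 ^ ((1 - ε) * r) →
          (2:ℝ) ^ r * L ≤ q ^ (1 - ε) → Good (ff sg l) r L ((2:ℝ) ^ (-(c1 / 5 * r)))) := by
    intro r
    by_cases hr : q ^ ε ≤ 2 ^ r ∧ (2:ℝ) ^ r ≤ q ^ (1 - ε)
    · obtain ⟨hr1, hr2⟩ := hr
      have hrr0 : r0 ≤ r := by
        have h1 : (2:ℝ) ^ (r0 + 1) ≤ 2 ^ r := v1.trans hr1
        have h2 : 2 ^ (r0 + 1) ≤ 2 ^ r := by exact_mod_cast h1
        have := (Nat.pow_le_pow_iff_right (by norm_num : 1 < 2)).mp h2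
        omega
      have hrq : (2:ℝ) ^ r ≤ q := by linarith [Real.rpow_nonneg hq0.le (1 - ε)]
      have hrQ : 2 ^ (r + 4) ≤ Q := by
        have h1 : (2:ℝ) ^ (r + 4) ≤ q := by
          rw [pow_add]; linarith [Real.rpow_nonneg hq0.le (1 - ε)]
        rw [hq] at h1
        exact_mod_cast h1
      have hrl : (r:ℝ) + 1 ≤ ll := by
        have h1 : 2 ^ r ≤ Q := by
          have : 2 ^ r ≤ 2 ^ (r + 4) := Nat.pow_le_pow_right (by norm_num) (by omega)
          omega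
        have h2 : r ≤ Nat.log 2 Q := Nat.le_log_of_pow_le (by norm_num) h1
        rw [hll]
        have : (r:ℝ) ≤ ((Nat.log 2 Q : ℕ) : ℝ) := by exact_mod_cast h2
        linarith
      obtain ⟨R, hR⟩ : ∃ R : ℝ, R = (2:ℝ) ^ r := ⟨_, rfl⟩
      have hR0 : 0 < R := by rw [hR]; positivity
      have hR1 : 1 ≤ R := by rw [hR]; exact one_le_pow₀ (by norm_num)
      rw [← hR] at hr1 hr2 hrq
      have hRp : ∀ a : ℝ, (2:ℝ) ^ (a * r) = R ^ a := by
        intro a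
        rw [hR, ← Real.rpow_natCast, ← Real.rpow_mul (by norm_num)]; congr 1; ring
      obtain ⟨Λ, hΛ⟩ : ∃ Λ : ℝ, Λ = min (q ^ (1 - ε) / R) (R ^ (1 - ε)) := ⟨_, rfl⟩
      have hΛ0 : 0 ≤ Λ := by rw [hΛ]; positivity
      have hΛ1 : Λ ≤ q ^ (1 - ε) / R := by rw [hΛ]; exact min_le_left _ _
      have hΛ2 : Λ ≤ R ^ (1 - ε) := by rw [hΛ]; exact min_le_right _ _
      obtain ⟨B, hB⟩ : ∃ B : ℝ, B = CH * (9 * R ^ 2 * q) ^ ε2 * (9 * R ^ 2 + q) := ⟨_, rfl⟩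
      obtain ⟨B', hB'⟩ : ∃ B' : ℝ, B' = CH * (q * q) ^ ε2 * (q + q) := ⟨_, rfl⟩
      have hB0 : 0 ≤ B := by rw [hB]; positivity
      have hB'0 : 0 ≤ B' := by rw [hB']; positivity
      have l1 : LSB ((3 * 2 ^ r) ^ 2) Q B := by
        have h1 := hls ((3 * 2 ^ r) ^ 2) Q (Nat.one_le_pow _ _ (by positivity)) hQ1
        have e : ((((3 * 2 ^ r) ^ 2 : ℕ)) : ℝ) = 9 * R ^ 2 := by
          rw [hR]; push_cast; ring
        rw [e, ← hq] at h1
        rw [hB]; exact h1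
      have l2 : LSB Q Q B' := by
        have h1 := hls Q Q hQ1 hQ1
        rw [← hq] at h1
        rw [hB']; exact h1
      obtain ⟨Bad, hb, hg⟩ := hper r hrr0 Q B B' Λ hB0 l1 hB'0 l2 hrQ hΛ0 sg hsg
      refine ⟨Bad, hb.trans ?_, fun _ _ l hlp hlr hlQ hlB L hL1 hL2 hL3 => ?_⟩
      · -- the size
        have hR2 : R ^ 2 ≤ q ^ 2 := pow_le_pow_left₀ hR0.le hrq 2
        have a1 : (9 * R ^ 2 * q) ^ ε2 ≤ 9 ^ ε2 * q ^ (3 * ε2) := by
          calc (9 * R ^ 2 * q) ^ ε2 ≤ (9 * q ^ 2 * q) ^ ε2 := by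
                apply Real.rpow_le_rpow (by positivity) _ hε20.le
                nlinarith
            _ = 9 ^ ε2 * q ^ (3 * ε2) := by
                rw [show (9:ℝ) * q ^ 2 * q = 9 * q ^ 3 by ring, Real.mul_rpow (by norm_num) (by positivity)]
                congr 1
                rw [← Real.rpow_natCast, ← Real.rpow_mul hq0.le]
                norm_num
        have a2 : (9 * R ^ 2 + q) * (Λ * R⁻¹) ≤ 10 * q ^ (1 - ε ^ 2) := by
          have b1 : R ^ 2 * (Λ * R⁻¹) ≤ q ^ (1 - ε) := by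
            calc R ^ 2 * (Λ * R⁻¹) ≤ R ^ 2 * (q ^ (1 - ε) / R * R⁻¹) := by gcongr
              _ = q ^ (1 - ε) := by field_simp
          have b2 : q * (Λ * R⁻¹) ≤ q ^ (1 - ε ^ 2) := by
            calc q * (Λ * R⁻¹) ≤ q * (R ^ (1 - ε) * R⁻¹) := by gcongr
              _ = q * R ^ (-ε) := by
                  congr 1
                  rw [← Real.rpow_neg_one R, ← Real.rpow_add hR0]; congr 1; ring
              _ ≤ q * (q ^ ε) ^ (-ε) := by
                  apply mul_le_mul_of_nonneg_left _ hq0.le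
                  exact Real.rpow_le_rpow_of_nonpos (by positivity) hr1 (by linarith)
              _ = q ^ (1 - ε ^ 2) := by
                  rw [← Real.rpow_mul hq0.le]
                  nth_rewrite 1 [← Real.rpow_one q]
                  rw [← Real.rpow_add hq0]; congr 1; ring
          have b3 : q ^ (1 - ε) ≤ q ^ (1 - ε ^ 2) := hqm _ _ (by linarith)
          calc (9 * R ^ 2 + q) * (Λ * R⁻¹) = 9 * (R ^ 2 * (Λ * R⁻¹)) + q * (Λ * R⁻¹) := by ring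
            _ ≤ 9 * q ^ (1 - ε ^ 2) + q ^ (1 - ε ^ 2) := by linarith
            _ = _ := by ring
        have a3 : R ^ (4 * c1) ≤ q ^ (4 * c1) := Real.rpow_le_rpow hR0.le hrq (by linarith)
        have a4 : ((r:ℝ) + 1) ^ 3 ≤ ll ^ 3 := pow_le_pow_left₀ (by positivity) hrl 3
        have first : ((r:ℝ) + 1) ^ 3 * B * Λ * (2:ℝ) ^ ((4 * c1 - 1) * r) ≤
            (10 * CH * 9 ^ ε2) * ll ^ 3 * q ^ (1 - ε ^ 3 / 50) := by
          have e : (2:ℝ) ^ ((4 * c1 - 1) * r) = R ^ (4 * c1) * R⁻¹ := by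
            rw [hRp, ← Real.rpow_neg_one R, ← Real.rpow_add hR0]; congr 1
          rw [e, hB]
          calc ((r:ℝ) + 1) ^ 3 * (CH * (9 * R ^ 2 * q) ^ ε2 * (9 * R ^ 2 + q)) * Λ *
                (R ^ (4 * c1) * R⁻¹) =
              ((r:ℝ) + 1) ^ 3 * (CH * (9 * R ^ 2 * q) ^ ε2 * ((9 * R ^ 2 + q) * (Λ * R⁻¹)) *
                R ^ (4 * c1)) := by ring
            _ ≤ ll ^ 3 * (CH * (9 ^ ε2 * q ^ (3 * ε2)) * (10 * q ^ (1 - ε ^ 2)) * q ^ (4 * c1)) := by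
                gcongr
            _ = (10 * CH * 9 ^ ε2) * ll ^ 3 * (q ^ (3 * ε2) * q ^ (1 - ε ^ 2) * q ^ (4 * c1)) := by
                ring
            _ ≤ (10 * CH * 9 ^ ε2) * ll ^ 3 * q ^ (1 - ε ^ 3 / 50) := by
                apply mul_le_mul_of_nonneg_left _ (by positivity)
                rw [← Real.rpow_add hq0, ← Real.rpow_add hq0]
                apply hqm
                rw [hc1, hε2]
                nlinarith
        have second : ((r:ℝ) + 1) * B' * (2:ℝ) ^ (-(c1 / 2 * r)) ≤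
            (2 * CH) * ll ^ 3 * q ^ (1 - ε ^ 3 / 50) := by
          have e : (2:ℝ) ^ (-(c1 / 2 * r)) = R ^ (-(c1 / 2)) := by
            rw [← hRp]; congr 1; ring
          have e1 : R ^ (-(c1 / 2)) ≤ q ^ (-(c1 * ε / 2)) := by
            calc R ^ (-(c1 / 2)) ≤ (q ^ ε) ^ (-(c1 / 2)) :=
                  Real.rpow_le_rpow_of_nonpos (by positivity) hr1 (by linarith)
              _ = _ := by rw [← Real.rpow_mul hq0.le]; congr 1; ring
          have e2 : B' = 2 * CH * q ^ (1 + 2 * ε2) := by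
            rw [hB', Real.mul_rpow hq0.le hq0.le, Real.rpow_add hq0, Real.rpow_one, two_mul ε2,
              Real.rpow_add hq0]
            ring
          have e3 : (r:ℝ) + 1 ≤ ll ^ 3 := by nlinarith [sq_nonneg ll, mul_pos (show 0 < ll by linarith) (show 0 < ll by linarith)]
          rw [e, e2]
          calc ((r:ℝ) + 1) * (2 * CH * q ^ (1 + 2 * ε2)) * R ^ (-(c1 / 2)) ≤
              ll ^ 3 * (2 * CH * q ^ (1 + 2 * ε2)) * q ^ (-(c1 * ε / 2)) := by gcongr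
            _ = (2 * CH) * ll ^ 3 * (q ^ (1 + 2 * ε2) * q ^ (-(c1 * ε / 2))) := by ring
            _ ≤ (2 * CH) * ll ^ 3 * q ^ (1 - ε ^ 3 / 50) := by
                apply mul_le_mul_of_nonneg_left _ (by positivity)
                rw [← Real.rpow_add hq0]
                apply hqm
                rw [hc1, hε2]
                nlinarith
        calc C * (((r:ℝ) + 1) ^ 3 * B * Λ * (2:ℝ) ^ ((4 * c1 - 1) * r) +
              ((r:ℝ) + 1) * B' * (2:ℝ) ^ (-(c1 / 2 * r))) ≤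
            C * ((10 * CH * 9 ^ ε2) * ll ^ 3 * q ^ (1 - ε ^ 3 / 50) +
              (2 * CH) * ll ^ 3 * q ^ (1 - ε ^ 3 / 50)) :=
              mul_le_mul_of_nonneg_left (add_le_add first second) hC.le
          _ = (C * (10 * CH * 9 ^ ε2 + 2 * CH)) * ll ^ 3 * q ^ (1 - ε ^ 3 / 50) := by ring
          _ ≤ K * ll ^ 3 * q ^ (1 - ε ^ 3 / 50) := by
              apply mul_le_mul_of_nonneg_right _ (by positivity)
              apply mul_le_mul_of_nonneg_right _ (by positivity)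
              rw [hK]
              have : 0 < C * (10 * CH * 9 ^ ε2 + 2 * CH) := by positivity
              linarith
      · refine hg l hlp hlr hlQ hlB L hL1 hL2 ?_
        rw [hΛ, le_min_iff]
        constructor
        · rw [le_div_iff₀ hR0, mul_comm, hR]; exact hL3
        · rw [← hRp]; exact hL2
    · refine ⟨∅, ?_, fun h1 h2 => absurd ⟨h1, h2⟩ hr⟩
      rw [card_empty, Nat.cast_zero]
      positivity
  choose bad hbd using hbad
  refine ⟨(range (Nat.log 2 Q + 1)).biUnion bad ∪ Icc 1 ⌊16 * q ^ (1 - ε)⌋₊, ?_, ?_⟩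
  · -- the size
    have k1 : (((range (Nat.log 2 Q + 1)).biUnion bad).card : ℝ) ≤
        ll * (K * ll ^ 3 * q ^ (1 - ε ^ 3 / 50)) := by
      have h1 : (((range (Nat.log 2 Q + 1)).biUnion bad).card : ℝ) ≤
          ∑ r ∈ range (Nat.log 2 Q + 1), ((bad r).card : ℝ) := by exact_mod_cast card_biUnion_le
      refine h1.trans ((sum_le_sum fun r _ => (hbd r).1).trans (le_of_eq ?_))
      rw [sum_const, card_range, nsmul_eq_mul, hll]
      push_cast; ring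
    have k2 : (((Icc 1 ⌊16 * q ^ (1 - ε)⌋₊ : Finset ℕ).card : ℕ) : ℝ) ≤ 16 * q ^ (1 - ε) := by
      rw [Nat.card_Icc]
      simpa using Nat.floor_le (show 0 ≤ 16 * q ^ (1 - ε) by positivity)
    have k3 : (((range (Nat.log 2 Q + 1)).biUnion bad ∪ Icc 1 ⌊16 * q ^ (1 - ε)⌋₊ : Finset ℕ).card : ℝ) ≤
        (((range (Nat.log 2 Q + 1)).biUnion bad).card : ℝ) +
          (((Icc 1 ⌊16 * q ^ (1 - ε)⌋₊ : Finset ℕ).card : ℕ) : ℝ) := by
      exact_mod_cast card_union_le _ _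
    have k4 : ll * (K * ll ^ 3 * q ^ (1 - ε ^ 3 / 50)) ≤ q ^ (1 - c) / 2 := by
      have m1 : ll ≤ q ^ c' := by rw [one_mul] at v2; exact v2
      have m2 : 2 * (K * ll) ≤ 2 * q ^ c' := by linarith
      have m3 : 2 ≤ q ^ c' := v5
      have m4 : ll ^ 3 ≤ q ^ (3 * c') := by
        calc ll ^ 3 ≤ (q ^ c') ^ 3 := pow_le_pow_left₀ (by linarith) m1 3
          _ = q ^ (3 * c') := by
              rw [← Real.rpow_natCast, ← Real.rpow_mul hq0.le]; congr 1; push_cast; ring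
      have m5 : q ^ c' * q ^ (3 * c') * q ^ (1 - ε ^ 3 / 50) * q ^ c' ≤ q ^ (1 - c) := by
        rw [← Real.rpow_add hq0, ← Real.rpow_add hq0, ← Real.rpow_add hq0]
        apply hqm
        rw [hc, hc']
        linarith
      have m6 : 0 < q ^ (1 - ε ^ 3 / 50) := by positivity
      have m7 : 0 < q ^ c' := by positivity
      have m8 : ll * (K * ll ^ 3 * q ^ (1 - ε ^ 3 / 50)) ≤
          q ^ c' * q ^ (3 * c') * q ^ (1 - ε ^ 3 / 50) := by
        calc ll * (K * ll ^ 3 * q ^ (1 - ε ^ 3 / 50)) = (K * ll) * ll ^ 3 * q ^ (1 - ε ^ 3 / 50) := by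
              ring
          _ ≤ _ := by gcongr
      have m9 : (q ^ c' * q ^ (3 * c') * q ^ (1 - ε ^ 3 / 50)) * 2 ≤
          q ^ c' * q ^ (3 * c') * q ^ (1 - ε ^ 3 / 50) * q ^ c' :=
        mul_le_mul_of_nonneg_left m3 (by positivity)
      linarith
    have k5 : 16 * q ^ (1 - ε) ≤ q ^ (1 - c) / 2 := by
      have : q ^ (1 - ε / 2) ≤ q ^ (1 - c) := hqm _ _ (by rw [hc]; nlinarith)
      linarith
    linarith
  · -- good primes
    intro p hp hpQ hpE r L h1 h2 h3 h4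
    rw [mem_union, mem_biUnion] at hpE
    push Not at hpE
    obtain ⟨hpE1, hpE2⟩ := hpE
    have hL1 : (1:ℝ) ≤ L := by
      refine le_trans ?_ h2
      exact Real.one_le_rpow (by norm_num) (by positivity)
    have h5 : (2:ℝ) ^ r ≤ q ^ (1 - ε) := by
      refine le_trans ?_ h4
      have : (0:ℝ) < 2 ^ r := by positivity
      nlinarith
    have hp1 : 16 * q ^ (1 - ε) < p := by
      by_contra hcon
      push Not at hcon
      apply hpE2
      rw [mem_Icc]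
      exact ⟨hp.one_lt.le, Nat.le_floor hcon⟩
    have hlr : 2 ^ (r + 4) < p := by
      have : (2:ℝ) ^ (r + 4) < p := by
        rw [pow_add]; linarith
      exact_mod_cast this
    have hrl : r ∈ range (Nat.log 2 Q + 1) := by
      rw [mem_range, Nat.lt_succ_iff]
      apply Nat.le_log_of_pow_le (by norm_num)
      have : 2 ^ r ≤ 2 ^ (r + 4) := Nat.pow_le_pow_right (by norm_num) (by omega)
      omega
    have key := (hbd r).2 h1 h5 p hp hlr hpQ (hpE1 r hrl) L h2 h3 h4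
    intro A A' g1 g2 g3
    refine (key A A' g1 g2 g3).trans ?_
    refine mul_le_mul_of_nonneg_right (mul_le_mul_of_nonneg_right ?_ (by linarith)) (by positivity)
    apply Real.rpow_le_rpow_of_exponent_le (by norm_num)
    have : c ≤ c1 / 5 := by rw [hc, hc1]; nlinarith
    have hr0 : (0:ℝ) ≤ r := Nat.cast_nonneg _
    nlinarith

end Pool.Agent.L0h54.VR
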