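import Pool.Agent.L0h54.VR.Stm

set_option autoImplicit false

/-! All scales of one dyadic size: the exceptional primes for the variance. -/

namespace Pool.Agent.L0h54.VR

open Finset Filter
open scoped Classical Topology
open Pool.Agent.L0h54.RM (Wn)
open Pool.Agent.L0h54.GC (SW ff es CC VV VV_ls cheb ev_exp ff_sq)
open Pool.Agent.H306R2.RZ (LSB)

theorem per_r (hE : E2B) (hT : TRANS) (ε c1 : ℝ) (hε0 : 0 < ε) (hε1 : ε < 1 / 2) (hc10 : 0 < c1)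
    (hc1ε : c1 ≤ ε / 4) : ∃ C : ℝ, 0 < C ∧ ∃ r0 : ℕ, ∀ r : ℕ, r0 ≤ r → ∀ (Q : ℕ) (B B' Λ : ℝ),
      0 ≤ B → LSB ((3 * 2 ^ r) ^ 2) Q B → 0 ≤ B' → LSB Q Q B' → 2 ^ (r + 4) ≤ Q → 0 ≤ Λ →
      ∀ sg : ℕ → ℝ, (∀ n, |sg n| = 1) → ∃ Bad : Finset ℕ,
        (Bad.card : ℝ) ≤ C * (((r:ℝ) + 1) ^ 3 * B * Λ * (2:ℝ) ^ ((4 * c1 - 1) * r) +
          ((r:ℝ) + 1) * B' * (2:ℝ) ^ (-(c1 / 2 * r))) ∧
        ∀ l : ℕ, l.Prime → 2 ^ (r + 4) < l → l ≤ Q → l ∉ Bad →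
          ∀ L : ℕ, (2:ℝ) ^ (ε * r) ≤ L → (L:ℝ) ≤ 2 ^ ((1 - ε) * r) → (L:ℝ) ≤ Λ →
            Good (ff sg l) r L ((2:ℝ) ^ (-(c1 / 5 * r))) := by
  obtain ⟨C1, hC1, hE1⟩ := hE c1 hc10
  obtain ⟨C2, hC2, hT1⟩ := hT
  -- the size conditions
  have hev : ∀ᶠ r : ℕ in atTop, 4 ≤ ε * r ∧
      C2 * 5 * ((r:ℝ) + 1) * (2:ℝ) ^ (-(c1 / 30 * r)) ≤ 1 ∧
      2 * ((r:ℝ) + 1) * (2:ℝ) ^ (-(c1 / 30 * r)) ≤ 1 := by
    have h1 : ∀ᶠ r : ℕ in atTop, 4 ≤ ε * r :=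
      (tendsto_natCast_atTop_atTop.const_mul_atTop hε0).eventually (eventually_ge_atTop 4)
    exact h1.and ((ev_exp (c1 / 30) (by positivity) (C2 * 5) 1 one_pos).and
      (ev_exp (c1 / 30) (by positivity) 2 1 one_pos))
  obtain ⟨r0, hr0⟩ := eventually_atTop.mp hev
  refine ⟨8 + C1, by positivity, r0, ?_⟩
  intro r hr Q B B' Λ hB0 hlsB hB'0 hlsB' hQ1 hΛ sg hsg
  obtain ⟨e1, e2, e3⟩ := hr0 r hr
  have hr1 : (1:ℝ) ≤ r := by
    by_contra hcon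
    push Not at hcon
    have : ε * r < 1 := by
      rcases Nat.eq_zero_or_pos r with h | h
      · rw [h]; simp
      · have : (1:ℝ) ≤ r := by exact_mod_cast h
        linarith
    linarith
  have hr0' : (0:ℝ) < r := by linarith
  have hr1' : 1 ≤ r := by exact_mod_cast hr1
  -- parameters
  obtain ⟨d, hd⟩ : ∃ d : ℕ, d = ⌊c1 * r⌋₊ := ⟨_, rfl⟩
  have hd1 : (d:ℝ) ≤ c1 * r := by rw [hd]; exact Nat.floor_le (by positivity)
  have hd2 : c1 * r < d + 1 := by rw [hd]; exact Nat.lt_floor_add_one _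
  have h2d : (2:ℝ) ^ d ≤ 2 ^ (c1 * r) := by
    rw [← Real.rpow_natCast]; exact Real.rpow_le_rpow_of_exponent_le (by norm_num) hd1
  have h2d' : (2:ℝ) ^ (c1 * r) ≤ 2 * 2 ^ d := by
    have : (2:ℝ) * 2 ^ d = 2 ^ ((d:ℝ) + 1) := by
      rw [Real.rpow_add (by norm_num), Real.rpow_natCast, Real.rpow_one]; ring
    rw [this]
    exact Real.rpow_le_rpow_of_exponent_le (by norm_num) hd2.le
  obtain ⟨D, hD⟩ : ∃ D : ℝ, D = 2 ^ (c1 / 2 * r) := ⟨_, rfl⟩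
  have hD0 : 0 < D := by rw [hD]; positivity
  obtain ⟨τ, hτ⟩ : ∃ τ : ℝ, τ = 2 ^ (-(c1 * r)) := ⟨_, rfl⟩
  have hτ0 : 0 < τ := by rw [hτ]; positivity
  have hτ1 : τ ≤ 1 := by
    rw [hτ]; exact Real.rpow_le_one_of_one_le_of_nonpos (by norm_num) (by
      have : 0 < c1 * r := by positivity
      linarith)
  obtain ⟨P, hP⟩ : ∃ P : Finset ℕ, P = (Icc 1 Q).filter (fun l => l.Prime ∧ 2 ^ (r + 4) < l) :=
    ⟨_, rfl⟩
  have hPm : ∀ l, l ∈ P ↔ (l.Prime ∧ 2 ^ (r + 4) < l) ∧ l ≤ Q := by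
    intro l
    rw [hP, mem_filter, mem_Icc]
    constructor
    · rintro ⟨⟨_, h1⟩, h2⟩; exact ⟨h2, h1⟩
    · rintro ⟨h2, h1⟩; exact ⟨⟨h2.1.one_lt.le, h1⟩, h2⟩
  -- the bad sets
  obtain ⟨bd1, hbd1⟩ : ∃ bd1 : ℕ → Finset ℕ, bd1 = fun i =>
    P.filter (fun l => D * 2 ^ r * 2 ^ i < VV (ff sg l) r i) := ⟨_, rfl⟩
  obtain ⟨LL, hLL⟩ : ∃ LL : ℕ × ℕ → ℕ, LL = fun x => x.2 * 2 ^ (x.1 - d) := ⟨_, rfl⟩
  obtain ⟨GR, hGR⟩ : ∃ GR : Finset (ℕ × ℕ), GR =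
    ((range r) ×ˢ (Ico (2 ^ d) (2 ^ (d + 1)))).filter
      (fun x => 1 ≤ LL x ∧ LL x ≤ 2 ^ r ∧ ((LL x : ℕ) : ℝ) ≤ Λ) := ⟨_, rfl⟩
  have hb2 : ∀ x : ℕ × ℕ, ∃ Bad : Finset ℕ, x ∈ GR →
      ((Bad.card : ℝ) ≤ C1 * ((r:ℝ) + 1) ^ 2 * B * Λ * (2:ℝ) ^ ((c1 - 1) * r) / τ ^ 2 ∧
      ∀ l : ℕ, l.Prime → 3 * 2 ^ r < l → l ≤ Q → l ∉ Bad → ∀ A A' : ℕ, 2 ^ r ≤ A → A ≤ A' →
      A' ≤ 2 ^ (r + 1) → |∑ a ∈ Ico A A', es (ff sg l) (Wn a (LL x)) 2| ≤ τ * (LL x : ℕ) * 2 ^ r) := by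
    intro x
    by_cases hx : x ∈ GR
    · have hx' := hx
      rw [hGR, mem_filter] at hx'
      obtain ⟨-, g1, g2, g3⟩ := hx'
      obtain ⟨Bad, hb, hg⟩ := hE1 sg hsg r (LL x) Q ((3 * 2 ^ r) ^ 2) B τ hB0 hlsB g1 g2 le_rfl hτ0
      refine ⟨Bad, fun _ => ⟨hb.trans ?_, hg⟩⟩
      gcongr
    · exact ⟨∅, fun h => absurd h hx⟩
  choose bd2 hbd2 using hb2
  have hc1b : ∀ i ∈ range (r + 1), ((bd1 i).card : ℝ) ≤ 8 * B' * (2:ℝ) ^ (-(c1 / 2 * r)) := by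
    intro i hi
    rw [mem_range] at hi
    rw [hbd1]
    have h1 := VV_ls sg hsg r i Q B' hB'0 hlsB' (by omega) hQ1 P (by
      intro l hl
      rw [hPm] at hl
      refine ⟨hl.1.1, ?_, hl.2⟩
      have : 2 ^ 4 ≤ 2 ^ (r + 4) := Nat.pow_le_pow_right (by norm_num) (by omega)
      omega)
    refine (cheb P (fun l => VV (ff sg l) r i) (fun l _ => sum_nonneg fun _ _ => sq_nonneg _)
      (D * 2 ^ r * 2 ^ i) _ (by positivity) h1).trans (le_of_eq ?_)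
    rw [Real.rpow_neg (by norm_num), ← hD, pow_add]
    field_simp
    ring
  refine ⟨(range (r + 1)).biUnion bd1 ∪ GR.biUnion bd2, ?_, ?_⟩
  · -- the size of the exceptional set
    have k1 : (((range (r + 1)).biUnion bd1).card : ℝ) ≤
        (r + 1) * (8 * B' * (2:ℝ) ^ (-(c1 / 2 * r))) := by
      have h1 : (((range (r + 1)).biUnion bd1).card : ℝ) ≤ ∑ i ∈ range (r + 1), ((bd1 i).card : ℝ) := by
        exact_mod_cast card_biUnion_le
      refine h1.trans ((sum_le_sum hc1b).trans (le_of_eq ?_))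
      rw [sum_const, card_range, nsmul_eq_mul]
      push_cast; ring
    have k2 : ((GR.biUnion bd2).card : ℝ) ≤
        ((r:ℝ) + 1) ^ 3 * B * Λ * (2:ℝ) ^ ((4 * c1 - 1) * r) * C1 := by
      have h1 : ((GR.biUnion bd2).card : ℝ) ≤ ∑ x ∈ GR, ((bd2 x).card : ℝ) := by
        exact_mod_cast card_biUnion_le
      refine h1.trans ((sum_le_sum fun x hx => (hbd2 x hx).1).trans ?_)
      rw [sum_const, nsmul_eq_mul]
      have h2 : (GR.card : ℝ) ≤ (r + 1) * 2 ^ (c1 * r) := by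
        have h3 : GR.card ≤ r * 2 ^ d := by
          rw [hGR]
          refine (card_filter_le _ _).trans ?_
          rw [card_product, Nat.card_Ico, card_range]
          have : 2 ^ (d + 1) - 2 ^ d = 2 ^ d := by rw [pow_succ]; omega
          rw [this]
        have h4 : (GR.card : ℝ) ≤ r * 2 ^ d := by exact_mod_cast h3
        refine h4.trans ?_
        gcongr
        linarith
      have hpw : (2:ℝ) ^ (c1 * r) * ((2:ℝ) ^ ((c1 - 1) * r) / τ ^ 2) = (2:ℝ) ^ ((4 * c1 - 1) * r) := by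
        have : τ ^ 2 = (2:ℝ) ^ (-(c1 * r) + -(c1 * r)) := by
          rw [Real.rpow_add (by norm_num), hτ]; ring
        rw [this, ← Real.rpow_sub (by norm_num), ← Real.rpow_add (by norm_num)]
        congr 1; ring
      calc (GR.card : ℝ) * (C1 * ((r:ℝ) + 1) ^ 2 * B * Λ * (2:ℝ) ^ ((c1 - 1) * r) / τ ^ 2) ≤
          ((r + 1) * 2 ^ (c1 * r)) * (C1 * ((r:ℝ) + 1) ^ 2 * B * Λ * (2:ℝ) ^ ((c1 - 1) * r) / τ ^ 2) :=
            mul_le_mul_of_nonneg_right h2 (by positivity)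
        _ = ((r:ℝ) + 1) ^ 3 * B * Λ * ((2:ℝ) ^ (c1 * r) * ((2:ℝ) ^ ((c1 - 1) * r) / τ ^ 2)) * C1 := by
            ring
        _ = _ := by rw [hpw]
    have k3 : (((range (r + 1)).biUnion bd1 ∪ GR.biUnion bd2).card : ℝ) ≤
        (((range (r + 1)).biUnion bd1).card : ℝ) + ((GR.biUnion bd2).card : ℝ) := by
      exact_mod_cast card_union_le _ _
    have k5 : 0 ≤ ((r:ℝ) + 1) ^ 3 * B * Λ * (2:ℝ) ^ ((4 * c1 - 1) * r) := by positivity
    have k6 : 0 ≤ ((r:ℝ) + 1) * B' * (2:ℝ) ^ (-(c1 / 2 * r)) := by positivity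
    nlinarith [k1, k2, k3, mul_nonneg hC1.le k6]
  · -- good primes
    intro l hlp hlr hlQ hlB L hL1 hL2 hL3
    rw [mem_union, mem_biUnion, mem_biUnion] at hlB
    push Not at hlB
    obtain ⟨hlB1, hlB2⟩ := hlB
    have hlP : l ∈ P := by rw [hPm]; exact ⟨⟨hlp, hlr⟩, hlQ⟩
    have hV : ∀ i ≤ r, VV (ff sg l) r i ≤ D * 2 ^ r * 2 ^ i := by
      intro i hi
      have h1 := hlB1 i (by rw [mem_range]; omega)
      rw [hbd1, mem_filter] at h1
      push Not at h1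
      exact h1 hlP
    have hL : 1 ≤ L := by
      have h1 : (1:ℝ) ≤ 2 ^ (ε * r) := Real.one_le_rpow (by norm_num) (by positivity)
      exact_mod_cast h1.trans hL1
    obtain ⟨s, hs⟩ : ∃ s, s = Nat.log 2 L := ⟨_, rfl⟩
    have hs1 : 2 ^ s ≤ L := by rw [hs]; exact Nat.pow_log_le_self 2 (by omega)
    have hs2 : L < 2 ^ (s + 1) := by rw [hs]; exact Nat.lt_pow_succ_log_self (by norm_num) L
    have hsc1 : ε * r < s + 1 := by
      have h1 : (2:ℝ) ^ (ε * r) < 2 ^ ((s:ℝ) + 1) := by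
        refine lt_of_le_of_lt hL1 ?_
        rw [show (s:ℝ) + 1 = ((s + 1 : ℕ) : ℝ) by push_cast; ring, Real.rpow_natCast]
        exact_mod_cast hs2
      exact (Real.rpow_lt_rpow_left_iff (by norm_num)).mp h1
    have hsc2 : (s:ℝ) ≤ (1 - ε) * r := by
      have h1 : (2:ℝ) ^ (s:ℝ) ≤ 2 ^ ((1 - ε) * r) := by
        refine le_trans ?_ hL2
        rw [Real.rpow_natCast]
        exact_mod_cast hs1
      exact (Real.rpow_le_rpow_left_iff (by norm_num)).mp h1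
    have hsr : s + 1 ≤ r := by
      have : (s:ℝ) + 1 ≤ r := by nlinarith
      exact_mod_cast this
    have hds : d ≤ s := by
      have h1 : (d:ℝ) ≤ ε / 4 * r := hd1.trans (mul_le_mul_of_nonneg_right hc1ε hr0'.le)
      have h2 : (d:ℝ) < s + 1 := by nlinarith
      have h3 : d < s + 1 := by exact_mod_cast h2
      omega
    -- the grid points
    obtain ⟨j, hj⟩ : ∃ j, j = L / 2 ^ (s - d) := ⟨_, rfl⟩
    have p2 : 0 < 2 ^ (s - d) := by positivity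
    have hjI : j ∈ Ico (2 ^ d) (2 ^ (d + 1)) := by
      rw [mem_Ico, hj, Nat.le_div_iff_mul_le p2, Nat.div_lt_iff_lt_mul p2, ← pow_add, ← pow_add]
      rw [show d + (s - d) = s by omega, show d + 1 + (s - d) = s + 1 by omega]
      exact ⟨hs1, hs2⟩
    obtain ⟨L', hL'⟩ : ∃ L', L' = j * 2 ^ (s - d) := ⟨_, rfl⟩
    have m1 : 2 ^ s ≤ L' := by
      rw [hL']
      calc 2 ^ s = 2 ^ d * 2 ^ (s - d) := by rw [← pow_add]; congr 1; omega
        _ ≤ _ := Nat.mul_le_mul_right _ (mem_Ico.mp hjI).1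
    have hL'L : L' ≤ L := by rw [hL', hj]; exact Nat.div_mul_le_self L _
    have hLd : L < L' + 2 ^ (s - d) := by
      have := Nat.lt_div_mul_add (a := L) (b := 2 ^ (s - d)) p2
      rw [hL', hj]; exact this
    have hx : (s, j) ∈ GR := by
      rw [hGR, mem_filter, mem_product, mem_range, hLL]
      simp only
      rw [← hL']
      refine ⟨⟨by omega, hjI⟩, ?_, ?_, ?_⟩
      · have : 1 ≤ 2 ^ s := Nat.one_le_two_pow
        omega
      · have : 2 ^ (s + 1) ≤ 2 ^ r := Nat.pow_le_pow_right (by norm_num) hsr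
        omega
      · refine le_trans ?_ hL3
        exact_mod_cast hL'L
    have hgood := (hbd2 _ hx).2 l hlp (by
      have : 2 ^ (r + 4) = 16 * 2 ^ r := by rw [pow_add]; ring
      omega) hlQ (hlB2 _ hx)
    have hLLx : LL (s, j) = L' := by rw [hLL, hL']
    rw [hLLx] at hgood
    have key := hT1 (ff sg l) r s d L L' D τ (by
      intro n hn1 hn2 _
      apply ff_sq sg hsg l n hlp
      intro hdv
      have h1 := Nat.le_of_dvd (by omega) hdv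
      have h2 : 2 ^ (r + 4) = 2 * 2 ^ (r + 3) := by rw [pow_succ]; ring
      omega) hr1' hsr hds m1 hL'L hs2 hLd hD0.le hτ0.le hτ1 hV hgood
    -- the error
    intro A A' h1 h2 h3
    refine (key A A' h1 h2 h3).trans ?_
    have hLr : (0:ℝ) ≤ L := Nat.cast_nonneg _
    refine mul_le_mul_of_nonneg_right (mul_le_mul_of_nonneg_right ?_ hLr) (by positivity)
    -- all five terms
    obtain ⟨z, hz⟩ : ∃ z : ℝ, z = (2:ℝ) ^ (-(c1 / 5 * r)) := ⟨_, rfl⟩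
    have hz0 : 0 < z := by rw [hz]; positivity
    have hid : (1:ℝ) / 2 ^ d ≤ 2 * 2 ^ (-(c1 * r)) := by
      rw [Real.rpow_neg (by norm_num), div_le_iff₀ (by positivity)]
      have h4 : 0 < (2:ℝ) ^ (c1 * r) := by positivity
      rw [mul_assoc, mul_comm ((2:ℝ) ^ (c1 * r))⁻¹, ← mul_assoc]
      rw [← div_eq_mul_inv, le_div_iff₀ h4, one_mul]
      exact h2d'
    have hDd : (r:ℝ) * D / 2 ^ d ≤ 2 * ((r:ℝ) + 1) * 2 ^ (-(c1 / 2 * r)) := by
      have h3 : D = 2 ^ (c1 * r) * 2 ^ (-(c1 / 2 * r)) := by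
        rw [hD, ← Real.rpow_add (by norm_num)]; congr 1; ring
      rw [div_le_iff₀ (by positivity)]
      calc (r:ℝ) * D = r * (2 ^ (c1 * r) * 2 ^ (-(c1 / 2 * r))) := by rw [← h3]
        _ ≤ (r + 1) * ((2 * 2 ^ d) * 2 ^ (-(c1 / 2 * r))) := by
            apply mul_le_mul (by linarith) _ (by positivity) (by positivity)
            exact mul_le_mul_of_nonneg_right h2d' (by positivity)
        _ = _ := by ring
    have hsplit : ∀ a b : ℝ, (2:ℝ) ^ (-(a * r)) * 2 ^ (-(b * r)) = 2 ^ (-((a + b) * r)) := by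
      intro a b
      rw [← Real.rpow_add (by norm_num)]; congr 1; ring
    have hmono : ∀ a b : ℝ, b ≤ a → (2:ℝ) ^ (-(a * r)) ≤ 2 ^ (-(b * r)) := by
      intro a b hab
      apply Real.rpow_le_rpow_of_exponent_le (by norm_num)
      nlinarith
    -- a convenient unit
    obtain ⟨w, hw⟩ : ∃ w : ℝ, w = (2:ℝ) ^ (-(c1 / 30 * r)) := ⟨_, rfl⟩
    have hw0 : 0 < w := by rw [hw]; positivity
    have hw1 : w ≤ 1 := by
      rw [hw]; exact Real.rpow_le_one_of_one_le_of_nonpos (by norm_num) (by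
        have : 0 < c1 / 30 * r := by positivity
        linarith)
    obtain ⟨y, hy⟩ : ∃ y : ℝ, y = (2:ℝ) ^ (-((c1 / 5 + c1 / 30) * r)) := ⟨_, rfl⟩
    have hyz : y = z * w := by rw [hy, hz, hw, hsplit]
    have hy0 : 0 < y := by rw [hy]; positivity
    -- each term is at most `(r + 1) y`
    have t1 : τ ≤ ((r:ℝ) + 1) * y := by
      have : τ ≤ y := by rw [hτ, hy]; exact hmono _ _ (by linarith)
      nlinarith
    have t2 : 1 / Real.sqrt (2 ^ s) ≤ ((r:ℝ) + 1) * y := by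
      have h4 : (2:ℝ) ^ (ε * r) ≤ 2 * 2 ^ s := by
        have : (2:ℝ) * 2 ^ s = 2 ^ ((s:ℝ) + 1) := by
          rw [Real.rpow_add (by norm_num), Real.rpow_natCast, Real.rpow_one]; ring
        rw [this]
        exact Real.rpow_le_rpow_of_exponent_le (by norm_num) hsc1.le
      have h5 : (2:ℝ) ^ (-(ε / 2 * r)) ≤ y := by
        rw [hy]; exact hmono _ _ (by linarith)
      have h6 : (2:ℝ) ^ (ε / 2 * r) / 2 ≤ Real.sqrt (2 ^ s) := by
        apply Real.le_sqrt_of_sq_le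
        have : ((2:ℝ) ^ (ε / 2 * r) / 2) ^ 2 = 2 ^ (ε * r) / 4 := by
          rw [div_pow, ← Real.rpow_natCast, ← Real.rpow_mul (by norm_num)]
          norm_num
          congr 1; ring
        have h2s : (0:ℝ) < 2 ^ s := by positivity
        rw [this]; linarith
      have h7 : 1 / Real.sqrt (2 ^ s) ≤ 2 * (2:ℝ) ^ (-(ε / 2 * r)) := by
        rw [Real.rpow_neg (by norm_num)]
        rw [div_le_iff₀ (by positivity)]
        have h8 : 0 < (2:ℝ) ^ (ε / 2 * r) := by positivity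
        calc (1:ℝ) = 2 * ((2:ℝ) ^ (ε / 2 * r))⁻¹ * ((2:ℝ) ^ (ε / 2 * r) / 2) := by field_simp
          _ ≤ _ := mul_le_mul_of_nonneg_left h6 (by positivity)
      nlinarith
    have hA : (r:ℝ) * D / 2 ^ d ≤ ((r:ℝ) + 1) * y := by
      refine hDd.trans ?_
      have h4 : (2:ℝ) ^ (-(c1 / 2 * r)) = y * 2 ^ (-((c1 / 2 - (c1 / 5 + c1 / 30)) * r)) := by
        rw [hy, hsplit]; congr 1; ring
      have h5 : (2:ℝ) ^ (-((c1 / 2 - (c1 / 5 + c1 / 30)) * r)) ≤ w := by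
        rw [hw]; exact hmono _ _ (by linarith)
      have h6 : 2 * ((r:ℝ) + 1) * w ≤ 1 := by rw [hw]; exact e3
      rw [h4]
      calc 2 * ((r:ℝ) + 1) * (y * 2 ^ (-((c1 / 2 - (c1 / 5 + c1 / 30)) * r))) ≤
          2 * ((r:ℝ) + 1) * (y * w) := by gcongr
        _ = (2 * ((r:ℝ) + 1) * w) * y := by ring
        _ ≤ 1 * y := mul_le_mul_of_nonneg_right h6 hy0.le
        _ ≤ _ := by nlinarith
    have hB : Real.sqrt (r * D / 2 ^ d) ≤ ((r:ℝ) + 1) * y := by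
      have h4 : (r:ℝ) * D / 2 ^ d ≤ y ^ 2 := by
        refine hDd.trans ?_
        have h5 : (2:ℝ) ^ (-(c1 / 2 * r)) = y ^ 2 * w := by
          rw [hy, hw, sq, hsplit, hsplit]; congr 1; ring
        have h6 : 2 * ((r:ℝ) + 1) * w ≤ 1 := by rw [hw]; exact e3
        rw [h5]
        calc 2 * ((r:ℝ) + 1) * (y ^ 2 * w) = (2 * ((r:ℝ) + 1) * w) * y ^ 2 := by ring
          _ ≤ 1 * y ^ 2 := mul_le_mul_of_nonneg_right h6 (by positivity)
          _ = _ := one_mul _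
      have h5 := Real.sqrt_le_sqrt h4
      rw [Real.sqrt_sq hy0.le] at h5
      nlinarith
    have t5 : 1 / (2:ℝ) ^ d ≤ ((r:ℝ) + 1) * y := by
      have : (2:ℝ) ^ (-(c1 * r)) ≤ y := by rw [hy]; exact hmono _ _ (by linarith)
      nlinarith
    rw [← hz]
    calc C2 * (τ + 1 / Real.sqrt (2 ^ s) + Real.sqrt (r * D / 2 ^ d) + r * D / 2 ^ d + 1 / 2 ^ d) ≤
        C2 * (5 * (((r:ℝ) + 1) * y)) := by
          apply mul_le_mul_of_nonneg_left _ hC2.le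
          linarith
      _ = (C2 * 5 * ((r:ℝ) + 1) * w) * z := by rw [hyz]; ring
      _ ≤ 1 * z := by
          apply mul_le_mul_of_nonneg_right _ hz0.le
          rw [hw]; exact e2
      _ = z := one_mul z

end Pool.Agent.L0h54.VR
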