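import Pool.Agent.L0h54.VR.Fin
import Pool.Agent.L0h63.VR.E2B
import Pool.Agent.L0h63.VR.TRANS
import Pool.Agent.L0h66.VR.BLK
import Pool.Agent.L0h66.VR.CONT
import Pool.Agent.L0h92.VR.CNT

set_option autoImplicit false

namespace Pool.Agent.L0h54.VR

open Finset MeasureTheory Filter
open Pool.Agent.L0h54.GC (SW ff es CC VV Mo measurable_Mo)

theorem Mo_sq_ii (f : ℕ → ℝ) (hf : ∀ n, |f n| ≤ 1) (X H : ℝ) (hX : 0 < X) :
    IntervalIntegrable (fun x => Mo f H x ^ 2) volume X (2 * X) := by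
  have hm : Measurable (fun x : ℝ => Mo f H x ^ 2) := (measurable_Mo f H).pow_const 2
  obtain ⟨K, hK⟩ : ∃ K : ℕ, K = ⌊2 * X + H⌋₊ + 1 := ⟨_, rfl⟩
  refine (intervalIntegrable_const (c := (K:ℝ) ^ 2)).mono_fun hm.aestronglyMeasurable ?_
  rw [Set.uIoc_of_le (by linarith)]
  refine (ae_restrict_iff' measurableSet_Ioc).mpr (Eventually.of_forall fun x hx => ?_)
  show ‖Mo f H x ^ 2‖ ≤ ‖(K:ℝ) ^ 2‖
  rw [Real.norm_eq_abs, Real.norm_eq_abs, abs_pow, abs_pow]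
  apply pow_le_pow_left₀ (abs_nonneg _)
  rw [Nat.abs_cast]
  unfold Mo
  refine (Finset.abs_sum_le_sum_abs _ _).trans ?_
  refine (Finset.sum_le_sum fun n _ => hf n).trans ?_
  rw [Finset.sum_const, nsmul_eq_mul, mul_one]
  refine Nat.cast_le.mpr ((Finset.card_filter_le _ _).trans ?_)
  rw [Finset.card_range, hK]
  exact Nat.succ_le_succ (Nat.floor_le_floor (by linarith [hx.2]))

theorem variance (ε : ℝ) (hε0 : 0 < ε) (hε1 : ε < 1 / 2) :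
    ∃ c : ℝ, 0 < c ∧ ∃ Q0 : ℕ, ∀ Q : ℕ, Q0 ≤ Q →
      ∀ sg : ℕ → ℝ, (∀ n, |sg n| = 1) → ∃ E : Finset ℕ, (E.card : ℝ) ≤ (Q:ℝ) ^ (1 - c) ∧
        ∀ p : ℕ, p.Prime → p ≤ Q → p ∉ E → ∀ X H : ℝ, (Q:ℝ) ^ ε ≤ X → X ^ ε ≤ H →
          H ≤ X ^ (1 - ε) → X * H ≤ (Q:ℝ) ^ (1 - ε) → ∀ g : ℕ → ℝ, (∀ n, ¬ Squarefree n → g n = 0) →
            (∀ n, Squarefree n → g n = ff sg p n) →
            |(1 / X) * (∫ x in X..2 * X, Mo g H x ^ 2) - 6 / Real.pi ^ 2 * H| ≤ H * X ^ (-c) := by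
  obtain ⟨c, hc, Q0, h⟩ := fin (Pool.Agent.L0h63.VR.t_E2B Pool.Agent.L0h92.VR.t_CNT
    Pool.Agent.L0h66.VR.blk) Pool.Agent.L0h63.VR.t_TRANS Pool.Agent.L0h66.VR.cont ε hε0 hε1
  refine ⟨c, hc, max Q0 1, fun Q hQ sg hsg => ?_⟩
  obtain ⟨E, hE1, hE2⟩ := h Q ((le_max_left _ _).trans hQ) sg hsg
  refine ⟨E, hE1, fun p hp hpQ hpE X H hX hH1 hH2 hXH g hg0 hg1 => ?_⟩
  have h1 := hE2 p hp hpQ hpE X H hX hH1 hH2 hXH g hg0 hg1
  have hQ1 : (1:ℝ) ≤ Q := by exact_mod_cast (le_max_right _ _).trans hQ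
  have hX0 : 0 < X := lt_of_lt_of_le (by positivity) hX
  have hg : ∀ n, |g n| ≤ 1 := by
    intro n
    by_cases hn : Squarefree n
    · rw [hg1 n hn]; unfold ff
      rw [abs_mul, hsg n, one_mul]; exact js_le_one n p
    · rw [hg0 n hn]; norm_num
  rw [intervalIntegral.integral_sub (Mo_sq_ii g hg X H hX0) intervalIntegrable_const,
      intervalIntegral.integral_const, smul_eq_mul] at h1
  have e : (1 / X) * ((∫ x in X..2 * X, Mo g H x ^ 2) - (2 * X - X) * (6 / Real.pi ^ 2 * H)) =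
      (1 / X) * (∫ x in X..2 * X, Mo g H x ^ 2) - 6 / Real.pi ^ 2 * H := by
    have : (1 / X) * X = 1 := by field_simp
    linear_combination -(6 / Real.pi ^ 2 * H) * this
  rwa [e] at h1

end Pool.Agent.L0h54.VR
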