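import Pool.Agent.L0h54.VR.All

set_option autoImplicit false

/-! The final statement for the variance. -/

namespace Pool.Agent.L0h54.VR

open Finset Filter MeasureTheory
open scoped Classical Topology
open Pool.Agent.L0h54.RM (Wn mem_Wn)
open Pool.Agent.L0h54.GC (SW ff es CC VV Mo)
open Pool.Agent.H306R2.RZ (LSB js)

lemma Good_congr (f g : ℕ → ℝ) (h : ∀ n, Squarefree n → f n = g n) (r L : ℕ) (τ : ℝ)
    (hf : Good f r L τ) : Good g r L τ := by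
  intro A A' h1 h2 h3
  have e : ∀ a, SW g a L = SW f a L := by
    intro a
    unfold SW
    exact sum_congr rfl fun n hn => (h n (mem_Wn.mp hn).2).symm
  simp only [e]
  exact hf A A' h1 h2 h3

lemma Good_mono (f : ℕ → ℝ) (r L : ℕ) (τ τ' : ℝ) (h : τ ≤ τ') (hf : Good f r L τ) :
    Good f r L τ' := by
  intro A A' h1 h2 h3
  refine (hf A A' h1 h2 h3).trans ?_
  gcongr

lemma js_le_one (n l : ℕ) : |js n l| ≤ 1 := by
  unfold js
  rcases jacobiSym.trichotomy (n : ℤ) l with h | h | h <;> rw [h] <;> norm_num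

theorem fin (hE : E2B) (hT : TRANS) (hC : CONT) (ε : ℝ) (hε0 : 0 < ε) (hε1 : ε < 1 / 2) :
    ∃ c : ℝ, 0 < c ∧ ∃ Q0 : ℕ, ∀ Q : ℕ, Q0 ≤ Q →
      ∀ sg : ℕ → ℝ, (∀ n, |sg n| = 1) → ∃ E : Finset ℕ, (E.card : ℝ) ≤ (Q:ℝ) ^ (1 - c) ∧
        ∀ p : ℕ, p.Prime → p ≤ Q → p ∉ E → ∀ X H : ℝ, (Q:ℝ) ^ ε ≤ X → X ^ ε ≤ H →
          H ≤ X ^ (1 - ε) → X * H ≤ (Q:ℝ) ^ (1 - ε) → ∀ g : ℕ → ℝ, (∀ n, ¬ Squarefree n → g n = 0) →
            (∀ n, Squarefree n → g n = ff sg p n) →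
            |(1 / X) * ∫ x in X..2 * X, Mo g H x ^ 2 - 6 / Real.pi ^ 2 * H| ≤ H * X ^ (-c) := by
  obtain ⟨C, hC0, hcont⟩ := hC
  obtain ⟨e, he⟩ : ∃ e : ℝ, e = ε / 4 := ⟨_, rfl⟩
  have he0 : 0 < e := by rw [he]; linarith
  obtain ⟨c, hc0, Q1, hgrid⟩ := grid_all hE hT e he0 (by rw [he]; linarith)
  obtain ⟨c2, hc2⟩ : ∃ c2 : ℝ, c2 = min (min c (ε / 2)) 1 / 2 := ⟨_, rfl⟩
  have hm0 : 0 < min (min c (ε / 2)) 1 := by
    rw [lt_min_iff, lt_min_iff]; exact ⟨⟨hc0, by linarith⟩, one_pos⟩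
  have hc20 : 0 < c2 := by rw [hc2]; linarith
  have hm1 : 2 * c2 ≤ c := by
    have := (min_le_left (min c (ε / 2)) 1).trans (min_le_left c (ε / 2))
    rw [hc2]; linarith
  have hm2 : 2 * c2 ≤ ε / 2 := by
    have := (min_le_left (min c (ε / 2)) 1).trans (min_le_right c (ε / 2))
    rw [hc2]; linarith
  have hm3 : 2 * c2 ≤ 1 := by
    have := min_le_right (min c (ε / 2)) 1
    rw [hc2]; linarith
  -- how large X has to be
  have hXev : ∀ᶠ X : ℝ in atTop, 16 ≤ X ∧ 4 ≤ X ^ (ε / 4) ∧ C * 6 ≤ X ^ c2 :=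
    (eventually_ge_atTop 16).and (((tendsto_rpow_atTop (by linarith)).eventually_ge_atTop 4).and
      ((tendsto_rpow_atTop hc20).eventually_ge_atTop _))
  obtain ⟨X0, hX0⟩ := eventually_atTop.mp hXev
  have hev := (((tendsto_rpow_atTop hε0).comp
      (tendsto_natCast_atTop_atTop (R := ℝ))).eventually_ge_atTop (max X0 1)).and
    ((((tendsto_rpow_atTop (show (0:ℝ) < ε / 4 by linarith)).comp
      (tendsto_natCast_atTop_atTop (R := ℝ))).eventually_ge_atTop 4).and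
    ((eventually_ge_atTop 1).and (eventually_ge_atTop Q1)))
  obtain ⟨Q0, hQ0⟩ := eventually_atTop.mp hev
  refine ⟨c2, hc20, Q0, ?_⟩
  intro Q hQ sg hsg
  obtain ⟨v1, v2, hQ1, hQQ⟩ := hQ0 Q hQ
  simp only [Function.comp] at v1 v2
  obtain ⟨E, hE1, hE2⟩ := hgrid Q hQQ sg hsg
  have hq1 : (1:ℝ) ≤ Q := by exact_mod_cast hQ1
  have hq0 : (0:ℝ) < Q := by linarith
  refine ⟨E, hE1.trans ?_, ?_⟩
  · exact Real.rpow_le_rpow_of_exponent_le hq1 (by linarith)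
  intro p hp hpQ hpE X H hX1 hH1 hH2 hXH g hg0 hg1
  obtain ⟨x1, x2, x3⟩ := hX0 X (((le_max_left _ _).trans v1).trans hX1)
  have hXpos : 0 < X := by linarith
  have hX1' : 1 ≤ X := by linarith
  have hXm : ∀ a b : ℝ, a ≤ b → X ^ a ≤ X ^ b := fun a b h =>
    Real.rpow_le_rpow_of_exponent_le hX1' h
  have hXe4 : X ^ ε = X ^ (ε / 4) * X ^ (3 * ε / 4) := by
    rw [← Real.rpow_add hXpos]; congr 1; ring
  have hX34 : 1 ≤ X ^ (3 * ε / 4) := Real.one_le_rpow hX1' (by linarith)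
  have hX34' : X ^ (ε / 4) ≤ X ^ (3 * ε / 4) := hXm _ _ (by linarith)
  have hXe : 4 * X ^ (3 * ε / 4) ≤ X ^ ε := by
    rw [hXe4]; exact mul_le_mul_of_nonneg_right x2 (by positivity)
  have hH4 : 16 ≤ H := by linarith
  have hHX : 4 * H ≤ X := by
    have h1 : X = X ^ ε * X ^ (1 - ε) := by
      rw [← Real.rpow_add hXpos]
      norm_num
    have h2 : 0 < X ^ (1 - ε) := by positivity
    have h3 : 4 ≤ X ^ ε := by linarith
    rw [h1]
    calc 4 * H ≤ 4 * X ^ (1 - ε) := by linarith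
      _ ≤ X ^ ε * X ^ (1 - ε) := mul_le_mul_of_nonneg_right h3 h2.le
  have hH0 : 0 < H := by linarith
  obtain ⟨L, hL⟩ : ∃ L, L = ⌊H⌋₊ := ⟨_, rfl⟩
  have L1 : (L : ℝ) ≤ H := by rw [hL]; exact Nat.floor_le (by linarith)
  have L2 : H < L + 1 := by rw [hL]; exact Nat.lt_floor_add_one _
  obtain ⟨τ, hτ⟩ : ∃ τ : ℝ, τ = (X / 4) ^ (-(2 * c2)) := ⟨_, rfl⟩
  have hτ0 : 0 ≤ τ := by rw [hτ]; positivity
  have hτ1 : τ ≤ 1 := by
    rw [hτ]; exact Real.rpow_le_one_of_one_le_of_nonpos (by linarith) (by linarith)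
  have hτ2 : τ ≤ 4 * X ^ (-(2 * c2)) := by
    rw [hτ, Real.div_rpow hXpos.le (by norm_num), div_le_iff₀ (by positivity)]
    have h1 : (4:ℝ) ^ (2 * c2) ≤ 4 := by
      calc (4:ℝ) ^ (2 * c2) ≤ 4 ^ (1:ℝ) := Real.rpow_le_rpow_of_exponent_le (by norm_num) hm3
        _ = 4 := Real.rpow_one 4
    have h2 : (4:ℝ) ^ (-(2 * c2)) * 4 ^ (2 * c2) = 1 := by
      rw [← Real.rpow_add (by norm_num)]; simp
    have h3 : 0 < (4:ℝ) ^ (-(2 * c2)) := by positivity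
    have h4 : 1 ≤ 4 * (4:ℝ) ^ (-(2 * c2)) := by nlinarith
    have h5 : 0 < X ^ (-(2 * c2)) := by positivity
    nlinarith
  have key := hcont g hg0 (by
    intro n
    by_cases hn : Squarefree n
    · rw [hg1 n hn]; unfold ff
      rw [abs_mul, hsg n, one_mul]; exact js_le_one n p
    · rw [hg0 n hn]; norm_num) X H τ (by linarith) hHX hτ0 hτ1 (by
    intro r hr1 hr2
    rw [← hL]
    obtain ⟨R, hR⟩ : ∃ R : ℝ, R = (2:ℝ) ^ r := ⟨_, rfl⟩
    have hR0 : 0 < R := by rw [hR]; positivity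
    have hRp : ∀ a : ℝ, (2:ℝ) ^ (a * r) = R ^ a := by
      intro a
      rw [hR, ← Real.rpow_natCast, ← Real.rpow_mul (by norm_num)]; congr 1; ring
    have hg := hE2 p hp hpQ hpE r L (by
      -- q^e ≤ 2^r
      refine le_trans ?_ hr1
      have h1 : (Q:ℝ) ^ ε = (Q:ℝ) ^ e * (Q:ℝ) ^ (3 * ε / 4) := by
        rw [← Real.rpow_add hq0]; congr 1; rw [he]; ring
      have h2 : (Q:ℝ) ^ (ε / 4) ≤ (Q:ℝ) ^ (3 * ε / 4) :=
        Real.rpow_le_rpow_of_exponent_le hq1 (by linarith)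
      have h3 : 0 < (Q:ℝ) ^ e := by positivity
      have h4 : 4 * (Q:ℝ) ^ e ≤ (Q:ℝ) ^ ε := by
        rw [h1]; nlinarith
      linarith) (by
      -- 2^(e r) ≤ L
      rw [hRp]
      have h1 : R ^ e ≤ (2 * X) ^ e :=
        Real.rpow_le_rpow hR0.le (by rw [hR]; exact hr2) he0.le
      have h2 : (2 * X) ^ e ≤ 2 * X ^ (ε / 4) := by
        rw [Real.mul_rpow (by norm_num) hXpos.le, he]
        apply mul_le_mul_of_nonneg_right _ (by positivity)
        calc (2:ℝ) ^ (ε / 4) ≤ 2 ^ (1:ℝ) := Real.rpow_le_rpow_of_exponent_le (by norm_num) (by linarith)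
          _ = 2 := Real.rpow_one 2
      linarith) (by
      -- L ≤ 2^((1 - e) r)
      rw [hRp]
      have h1 : (X / 4) ^ (1 - e) ≤ R ^ (1 - e) := by
        rw [hR]
        exact Real.rpow_le_rpow (by linarith) hr1 (by rw [he]; linarith)
      refine L1.trans (hH2.trans (le_trans ?_ h1))
      rw [Real.div_rpow hXpos.le (by norm_num), le_div_iff₀ (by positivity)]
      have h2 : (4:ℝ) ^ (1 - e) ≤ 4 := by
        calc (4:ℝ) ^ (1 - e) ≤ 4 ^ (1:ℝ) := Real.rpow_le_rpow_of_exponent_le (by norm_num) (by linarith)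
          _ = 4 := Real.rpow_one 4
      have h3 : X ^ (1 - e) = X ^ (1 - ε) * X ^ (3 * ε / 4) := by
        rw [← Real.rpow_add hXpos]; congr 1; rw [he]; ring
      rw [h3]
      have h4 : 0 < X ^ (1 - ε) := by positivity
      apply mul_le_mul_of_nonneg_left _ h4.le
      linarith) (by
      -- 2^r L ≤ q^(1 - e)
      have h1 : (2:ℝ) ^ r * L ≤ (2 * X) * H := by gcongr
      have h2 : (Q:ℝ) ^ (1 - e) = (Q:ℝ) ^ (1 - ε) * (Q:ℝ) ^ (3 * ε / 4) := by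
        rw [← Real.rpow_add hq0]; congr 1; rw [he]; ring
      have h3 : (Q:ℝ) ^ (ε / 4) ≤ (Q:ℝ) ^ (3 * ε / 4) :=
        Real.rpow_le_rpow_of_exponent_le hq1 (by linarith)
      have h4 : 0 < (Q:ℝ) ^ (1 - ε) := by positivity
      rw [h2]
      nlinarith)
    refine Good_congr _ _ (fun n hn => (hg1 n hn).symm) r L τ (Good_mono _ r L _ τ ?_ hg)
    have e1 : (2:ℝ) ^ (-(c * r)) = R ^ (-c) := by rw [← hRp]; congr 1; ring
    rw [e1, hτ]
    have hRX : X / 4 ≤ R := by rw [hR]; exact hr1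
    calc R ^ (-c) ≤ (X / 4) ^ (-c) :=
          Real.rpow_le_rpow_of_nonpos (by linarith) hRX (by linarith)
      _ ≤ (X / 4) ^ (-(2 * c2)) := Real.rpow_le_rpow_of_exponent_le (by linarith) (by linarith))
  refine key.trans ?_
  have a1 : 1 / Real.sqrt H ≤ X ^ (-(2 * c2)) := by
    have h1 : X ^ (ε / 2) ≤ Real.sqrt H := by
      apply Real.le_sqrt_of_sq_le
      rw [← Real.rpow_natCast, ← Real.rpow_mul hXpos.le]
      refine le_trans (le_of_eq ?_) hH1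
      congr 1; push_cast; ring
    have h2 : 1 / Real.sqrt H ≤ 1 / X ^ (ε / 2) := one_div_le_one_div_of_le (by positivity) h1
    have h3 : 1 / X ^ (ε / 2) = X ^ (-(ε / 2)) := by rw [Real.rpow_neg hXpos.le, one_div]
    rw [h3] at h2
    exact h2.trans (hXm _ _ (by linarith))
  have a2 : H / X ≤ X ^ (-(2 * c2)) := by
    rw [div_le_iff₀ hXpos]
    refine hH2.trans ?_
    nth_rewrite 3 [← Real.rpow_one X]
    rw [← Real.rpow_add hXpos]
    exact hXm _ _ (by linarith)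
  have a3 : X ^ (-(2 * c2)) = X ^ (-c2) * X ^ (-c2) := by
    rw [← Real.rpow_add hXpos]; congr 1; ring
  have a4 : X ^ c2 * X ^ (-c2) = 1 := by rw [← Real.rpow_add hXpos]; simp
  have a5 : 0 < X ^ (-c2) := by positivity
  have a6 : (C * 6) * X ^ (-c2) ≤ 1 := by
    rw [← a4]; exact mul_le_mul_of_nonneg_right x3 a5.le
  calc C * H * (τ + 1 / Real.sqrt H + H / X) ≤ C * H * (6 * X ^ (-(2 * c2))) := by
        apply mul_le_mul_of_nonneg_left _ (by positivity)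
        linarith
    _ = H * (((C * 6) * X ^ (-c2)) * X ^ (-c2)) := by rw [a3]; ring
    _ ≤ H * (1 * X ^ (-c2)) := by gcongr
    _ = H * X ^ (-c2) := by rw [one_mul]

end Pool.Agent.L0h54.VR
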