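import Pool.Agent.L0h54.GC.Main
import Pool.Agent.L0h54.CL.Scale

set_option autoImplicit false

/-!
# The variance of Legendre twists of the Möbius function in short intervals: statements

Existing files to be used (all landed): `GC/{LS,Alg,Mom,Cnt1,Cnt2,Cnt3,Grid1,Grid2,Cont,Main}.lean`, `CL/Scale.lean`,
`RM/{Count1,Sqf,Char}.lean` (`sqf_avg`, `Wn`, `kap`).
`Wn a L` = the squarefree integers in `(a, a + L]`; `SW f a L` = sum of `f` over `Wn a L`;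
`es f W 2` = sum over the 2-element subsets `T` of `W` of `∏ n ∈ T, f n`;
`ff sg l n = sg n * js n l` (`js n l` = Jacobi symbol as a real number);
`CC 2 L a b` = the number of pairs of 2-element subsets `T` of `Wn a L`, `R` of `Wn b L` with square product.
-/

namespace Pool.Agent.L0h54.VR

open Finset MeasureTheory
open scoped Classical
open Pool.Agent.L0h54.RM (Wn)
open Pool.Agent.L0h54.GC (SW ff es CC VV Mo)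
open Pool.Agent.H306R2.RZ (LSB)
open Pool.Agent.L0h54.CL (Qd2)

/-- Module CNT (about 150 lines).
Proof: fix `a` and `T = {n₁ < n₂}` in `Wn a L`, `g = gcd n₁ n₂`, `n₁ = g x₁`, `n₂ = g x₂`, `u = x₁ x₂` squarefree. For
`R = {m₁ < m₂}` in `Wn b L` with square product let `h = gcd m₁ m₂`, `m₁ = h y₁`, `m₂ = h y₂`. Then `x₁ x₂ y₁ y₂` is a
square and both `x₁ x₂`, `y₁ y₂` are squarefree, so `y₁ y₂ = u`; `y₂ ^ 2 > y₁ y₂ = x₁ x₂ > x₁ ^ 2`, so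
`y₂ ≥ x₁ = n₁ / g ≥ N / g` and `h = m₂ / y₂ ≤ 3 N g / N = 3 g`. So `(y₁, h)` lies in `divisors u × [1, 3 g]` and
determines `(m₁, m₂)`; and given `m₁` there are at most `L` numbers `b` with `m₁ ∈ Wn b L`. With the divisor bound
(`Helper112.divisor_bound`, see `cnt_main` in `GC/Cnt3.lean`) `∑ b, CC ≤ L C N^ε ∑_T 3 gcd(T)`, and
`∑_a ∑_T gcd(T) ≤ L ∑_{n ≤ 3 N} ∑_{0 < k < L} gcd (n, k) ≤ L ∑_k ∑_{d ∣ k} d (3 N / d) ≤ L ∑_k 3 N τ(k)`. -/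
def CNT : Prop := ∀ ε : ℝ, 0 < ε → ∃ C : ℝ, 0 < C ∧ ∀ N L : ℕ, 1 ≤ N → 1 ≤ L → L ≤ N →
  ∑ a ∈ Ico N (2 * N), ∑ b ∈ Ico N (2 * N), CC 2 L a b ≤ C * (N:ℝ) ^ (1 + ε) * (L:ℝ) ^ 3

/-- Module BLK (about 150 lines): the large sieve for the dyadic block sums.
Proof: `Qd2` is a sum over dyadic blocks of squares; for a block `𝒜` of `a`'s the proof of `GC.F_bound` (file
`GC/Mom.lean`; it uses `ls_fam` of `GC/LS.lean`, which is stated for `LSB M Q B` with `M ≠ Q`) gives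
`∑_l (∑_{a ∈ 𝒜} es_2)² ≤ B ∑_{a ∈ 𝒜} ∑_{b ∈ 𝒜} CC 2 L a b` (all products are at most `(3 · 2^r)²`, since
`a + L ≤ 3 · 2^r`); the blocks of one level are disjoint subsets of `[2^r, 2^(r+1))` and `CC ≥ 0`, and there are
`r + 1` levels. -/
def BLK : Prop := ∀ sg : ℕ → ℝ, (∀ n, |sg n| = 1) → ∀ (r L Q M : ℕ) (B : ℝ), 0 ≤ B → LSB M Q B →
  1 ≤ L → L ≤ 2 ^ r → (3 * 2 ^ r) ^ 2 ≤ M → ∀ P : Finset ℕ,
  (∀ l ∈ P, l.Prime ∧ 3 * 2 ^ r < l ∧ l ≤ Q) →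
  ∑ l ∈ P, Qd2 r (fun i => es (ff sg l) (Wn (2 ^ r + i) L) 2) ≤
    ((r:ℝ) + 1) * (B * ∑ a ∈ Ico (2 ^ r) (2 * 2 ^ r), ∑ b ∈ Ico (2 ^ r) (2 * 2 ^ r), CC 2 L a b)

/-- Module E2B (about 100 lines), from CNT and BLK: for one `r` and one `L`, all intervals `[A, B)` at once.
Proof: `CL.dyadic_max2` gives `|∑_{a ∈ Ico A B} es_2| ≤ 2 sqrt ((r + 1) Qd2)` (difference of two initial sums), then
Chebyshev (`GC.cheb`). -/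
def E2B : Prop := ∀ ε : ℝ, 0 < ε → ∃ C : ℝ, 0 < C ∧ ∀ sg : ℕ → ℝ, (∀ n, |sg n| = 1) →
  ∀ (r L Q M : ℕ) (B τ : ℝ), 0 ≤ B → LSB M Q B → 1 ≤ L → L ≤ 2 ^ r → (3 * 2 ^ r) ^ 2 ≤ M → 0 < τ →
  ∃ Bad : Finset ℕ, (Bad.card : ℝ) ≤ C * ((r:ℝ) + 1) ^ 2 * B * L * (2:ℝ) ^ ((ε - 1) * r) / τ ^ 2 ∧
    ∀ l : ℕ, l.Prime → 3 * 2 ^ r < l → l ≤ Q → l ∉ Bad → ∀ A A' : ℕ, 2 ^ r ≤ A → A ≤ A' →
      A' ≤ 2 ^ (r + 1) → |∑ a ∈ Ico A A', es (ff sg l) (Wn a L) 2| ≤ τ * L * 2 ^ r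

/-- the mean square over subintervals of `[2^r, 2^(r+1)]` -/
def Good (f : ℕ → ℝ) (r L : ℕ) (τ : ℝ) : Prop := ∀ A A' : ℕ, 2 ^ r ≤ A → A ≤ A' → A' ≤ 2 ^ (r + 1) →
  |∑ a ∈ Ico A A', SW f a L ^ 2 - 6 / Real.pi ^ 2 * L * ((A':ℝ) - A)| ≤ τ * L * 2 ^ r

/-- Module TRANS (about 200 lines): from a grid length `L'` to all lengths `L` near it (deterministic).
Proof: `SW f a L' ^ 2 = card (Wn a L') + 2 es f (Wn a L') 2` as `f n ^ 2 = 1` on the windows; the sum of `card` is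
`6/π² L' (A' - A)` up to `6 · 2^r sqrt L'` (`RM.sqf_avg`); `SW f a L = SW f a L' + SW f (a + L') (L - L')` (`GC.SW_add`)
and `∑_a SW f (a + L') (L - L')² ≤ (s - d) D 2^r 2^(s-d)` by `GC.SW_sq_sum`; Cauchy-Schwarz. -/
def TRANS : Prop := ∃ C : ℝ, 0 < C ∧ ∀ (f : ℕ → ℝ) (r s d L L' : ℕ) (D τ : ℝ),
  (∀ n, 1 ≤ n → n ≤ 2 ^ (r + 3) → Squarefree n → f n ^ 2 = 1) → 1 ≤ r → s + 1 ≤ r → d ≤ s →
  2 ^ s ≤ L' → L' ≤ L → L < 2 ^ (s + 1) → L < L' + 2 ^ (s - d) → 0 ≤ D → 0 ≤ τ → τ ≤ 1 →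
  (∀ i ≤ r, VV f r i ≤ D * 2 ^ r * 2 ^ i) →
  (∀ A A' : ℕ, 2 ^ r ≤ A → A ≤ A' → A' ≤ 2 ^ (r + 1) →
    |∑ a ∈ Ico A A', es f (Wn a L') 2| ≤ τ * L' * 2 ^ r) →
  Good f r L (C * (τ + 1 / Real.sqrt (2 ^ s) + Real.sqrt (r * D / 2 ^ d) + r * D / 2 ^ d + 1 / 2 ^ d))

/-- Module CONT (about 200 lines): from the sums to the integral (deterministic).
Proof: `GC.Mo_near`: `|Mo f H x - SW f ⌊x - H/2⌋ ⌊H⌋| ≤ 2`. The integral over `[X, 2 X]` of `SW f ⌊x - H/2⌋₊ ⌊H⌋₊ ^ 2`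
is the sum over `a` in `[X - H/2, 2 X - H/2]` up to two end terms, each at most `H²`; cut at the powers of 2 (at most
three dyadic blocks); Cauchy-Schwarz for the difference (the mean of `|SW|` is at most `2 sqrt H` times a constant).
See `GC/Cont.lean` (`cf_near`) for the same passage for the characteristic function. -/
def CONT : Prop := ∃ C : ℝ, 0 < C ∧ ∀ f : ℕ → ℝ, (∀ n, ¬ Squarefree n → f n = 0) → (∀ n, |f n| ≤ 1) →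
  ∀ X H τ : ℝ, 4 ≤ H → 4 * H ≤ X → 0 ≤ τ → τ ≤ 1 →
  (∀ r : ℕ, X / 4 ≤ 2 ^ r → (2:ℝ) ^ r ≤ 2 * X → Good f r ⌊H⌋₊ τ) →
  |(1 / X) * ∫ x in X..2 * X, Mo f H x ^ 2 - 6 / Real.pi ^ 2 * H| ≤
    C * H * (τ + 1 / Real.sqrt H + H / X)

end Pool.Agent.L0h54.VR
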